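import Pool.Agent.helper9.HQ.Spec

/-!
# Row `hq:KB2`
-/

set_option autoImplicit false

open scoped Classical

namespace Pool.Agent.helper9.HQ

open Finset
open Pool.Agent.helper65.HC (V IsEig IsTop lam)

theorem KB2 : KB2_stmt := by
  intro n x a l nu M q ta hn hC hq0 hq1 hta h1 h2 h3
  obtain ⟨N, rfl⟩ : ∃ N, n = N + 1 := ⟨n - 1, by omega⟩
  rw [Nat.add_sub_cancel] at hC h1 h2 ⊢
  have hN : 2 ≤ N := by omega
  -- partial sums
  have hw : ∀ k, k ≤ N → wk l x k = l * q ^ k := by
    intro k
    induction k with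
    | zero => intro _; unfold wk; simp
    | succ k ih =>
      intro hk
      rw [h1 (k + 1) (by omega) hk, Nat.add_sub_cancel, ih (by omega), pow_succ]
      ring
  have hb : ∀ k, k ≤ N → ∑ j ∈ range k, x j = l * (1 - q ^ k) := by
    intro k hk
    have := hw k hk
    unfold wk at this
    linarith
  have hx : ∀ i, i < N → x i = l * q ^ i * (1 - q) := by
    intro i hi
    have e1 := hb i hi.le
    have e2 := hb (i + 1) hi
    rw [Finset.sum_range_succ, e1, pow_succ] at e2
    linarith
  have ha : ∀ k, k ≤ N → a k = a 0 - k * (ta * (1 - q)) := by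
    intro k
    induction k with
    | zero => intro _; simp
    | succ k ih =>
      intro hk
      rw [h3 (k + 1) (by omega) (by omega), Nat.add_sub_cancel, ih (by omega)]
      push_cast
      ring
  obtain ⟨F, hF⟩ : ∃ F : ℝ, F = ∑ j ∈ range (N + 1), x j * a j := ⟨_, rfl⟩
  have eN := hC.e1 N (by omega)
  rw [Nat.sub_self, Finset.range_zero, Finset.sum_empty, add_zero, ← hF] at eN
  have e0 := hC.e1 0 (by omega)
  rw [Nat.sub_zero, ← hF] at e0
  have e0' : ∑ j ∈ range N, x j * (a 0 + a j) = (l * (1 - q ^ N)) * a 0 + (F - x N * a N) := by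
    have : ∑ j ∈ range N, x j * (a 0 + a j) = (∑ j ∈ range N, x j) * a 0 +
        ∑ j ∈ range N, x j * a j := by
      rw [Finset.sum_mul, ← Finset.sum_add_distrib]
      exact Finset.sum_congr rfl fun j _ => by ring
    rw [this, hb N le_rfl]
    rw [Finset.sum_range_succ] at hF
    linarith
  rw [e0'] at e0
  have hxN : x N = 1 - l * (1 - q ^ N) := by
    have := hC.sx
    rw [Finset.sum_range_succ, hb N le_rfl] at this
    linarith
  have hk := h2 N (by omega) le_rfl
  rw [Nat.sub_self] at hk
  have h3N := h3 N (by omega) (by omega)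
  have hsum : a 0 + a N = q * ta := by linarith
  have haN := ha N le_rfl
  have h2a : 2 * a N = ta * (q - N * (1 - q)) := by linarith
  have hmain : l * q ^ N * (a 0 + a N) = (3 * l - 1) * a N := by
    rw [hxN] at e0
    have : F = l * a N := eN.symm
    rw [this] at e0
    linarith
  obtain ⟨u, hu⟩ : ∃ u : ℝ, u = (1 - q) / q := ⟨_, rfl⟩
  have hqu : q * u = 1 - q := by rw [hu]; field_simp
  have hqu1 : q * (1 + u) = 1 := by linarith
  have hpow : ∀ m : ℕ, q ^ m * (1 + u) ^ m = 1 := fun m => by
    rw [← mul_pow, hqu1, one_pow]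
  have hu0 : 0 < u := by
    rw [hu]; exact div_pos (by linarith) hq0
  refine ⟨u, hu0, ?_, ?_⟩
  · have e1 : 2 * (l * q ^ N) = (3 * l - 1) * (1 - N * u) := by
      have e2 : (2 * (l * q ^ N)) * (q * ta) = ((3 * l - 1) * (1 - N * u)) * (q * ta) := by
        rw [hsum] at hmain
        have e3 : ((3 * l - 1) * (1 - N * u)) * (q * ta) = (3 * l - 1) * (ta * (q - N * (q * u))) := by
          ring
        rw [e3, hqu, ← h2a]
        linarith
      exact mul_right_cancel₀ (by positivity) e2
    have e4 : 2 * l = 2 * (l * q ^ N) * (1 + u) ^ N := by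
      have := hpow N
      linear_combination (-2 * l) * this
    rw [e4, e1]
    push_cast
    ring
  · have hzz : zz (N + 1) u = q ^ N * (1 + N * (1 - q)) := by
      unfold zz
      have hpos : (1 + u) ^ (N + 1) ≠ 0 := by positivity
      rw [div_eq_iff hpos]
      have e5 := hpow N
      push_cast
      have e6 : (1 + u) ^ (N + 1) = (1 + u) ^ N * (1 + u) := pow_succ _ _
      rw [e6]
      have e7 : q ^ N * (1 + N * (1 - q)) * ((1 + u) ^ N * (1 + u)) =
          (q ^ N * (1 + u) ^ N) * ((1 + N * (1 - q)) * (1 + u)) := by ring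
      rw [e7, e5, one_mul]
      have e8 : (1 - q) * (1 + u) = u := by linarith
      have e9 : (1 + (N : ℝ) * (1 - q)) * (1 + u) = 1 + u + N * ((1 - q) * (1 + u)) := by ring
      rw [e9, e8]
      ring
    rw [hzz]
    unfold arc
    rw [Finset.sum_range_succ, Nat.sub_self, Finset.range_zero, Finset.sum_empty, mul_zero,
      add_zero]
    have e1 : ∑ i ∈ range N, x i * ∑ j ∈ range (N - i), x j =
        ∑ i ∈ range N, (l ^ 2 * (1 - q)) * (q ^ i - q ^ N) := by
      apply Finset.sum_congr rfl
      intro i hi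
      rw [Finset.mem_range] at hi
      rw [hx i hi, hb (N - i) (by omega)]
      have : q ^ N = q ^ i * q ^ (N - i) := by rw [← pow_add]; congr 1; omega
      rw [this]
      ring
    rw [e1, ← Finset.mul_sum, Finset.sum_sub_distrib, Finset.sum_const, Finset.card_range,
      nsmul_eq_mul]
    have e2 := mul_neg_geom_sum q N
    linear_combination (l ^ 2) * e2

end Pool.Agent.helper9.HQ
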