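import Pool.Agent.helper9.HQ.Spec

/-!
# Row `hq:LC`
-/

set_option autoImplicit false

open scoped Classical

namespace Pool.Agent.helper9.HQ

open Finset
open Pool.Agent.helper65.HC (V IsEig IsTop lam)

theorem LC_ch (k : ℕ) : 2 * k.choose 2 + k = k ^ 2 := by
  induction k with
  | zero => rfl
  | succ k ih =>
    rw [Nat.choose_succ_succ' k 1, Nat.choose_one_right]
    nlinarith

theorem LC_sum {d : ℕ} (K : Finset (Fin d)) (a b : ℝ) :
    ∑ i : Fin d, (if i ∈ K then a else b) = K.card * a + (d - K.card) * b := by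
  have h1 : ∀ i : Fin d, (if i ∈ K then a else b) = (if i ∈ K then a - b else 0) + b := by
    intro i
    split_ifs <;> ring
  simp only [h1]
  rw [Finset.sum_add_distrib, Finset.sum_ite_mem, Finset.univ_inter, Finset.sum_const,
    Finset.sum_const, Finset.card_univ, Fintype.card_fin, nsmul_eq_mul, nsmul_eq_mul]
  ring

/-- the parameters -/
theorem LC_par (s : ℝ) (h0 : 0 ≤ s) (h1 : s ≤ 1) : ∃ a b : ℝ,
    s * (3 * s * a + (1 - s) * b) = s * (cC s * a) ∧
    (1 - s) * (s * a + (1 - s) * b) = (1 - s) * (cC s * b) ∧ 0 < s * a ^ 2 + (1 - s) * b ^ 2 := by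
  have hd : 0 ≤ 1 - 4 * s + 12 * s ^ 2 := by nlinarith [sq_nonneg (1 - 2 * s)]
  have hs := Real.sq_sqrt hd
  obtain ⟨r, hr⟩ : ∃ r : ℝ, r = √(1 - 4 * s + 12 * s ^ 2) := ⟨_, rfl⟩
  rw [← hr] at hs
  have hr0 : 0 ≤ r := by rw [hr]; exact Real.sqrt_nonneg _
  have hla : cC s = (1 + 2 * s + r) / 2 := by unfold cC; rw [hr]
  rcases eq_or_lt_of_le h0 with h2 | h2
  · subst h2
    have hr1 : r = 1 := by
      rw [hr]; norm_num
    refine ⟨0, 1, by ring, ?_, by norm_num⟩
    rw [hla, hr1]; ring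
  · rcases eq_or_lt_of_le h1 with h3 | h3
    · subst h3
      have hr1 : r = 3 := by
        have : r ^ 2 = 3 ^ 2 := by rw [hs]; norm_num
        nlinarith
      refine ⟨1, 0, ?_, by ring, by norm_num⟩
      rw [hla, hr1]; ring
    · refine ⟨cC s - (1 - s), s, ?_, ?_, ?_⟩
      · have : 3 * s * (cC s - (1 - s)) + (1 - s) * s = cC s * (cC s - (1 - s)) := by
          rw [hla]
          nlinarith
        rw [this]
      · ring
      · have e1 : 0 ≤ s * (cC s - (1 - s)) ^ 2 := by positivity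
        have e2 : 0 < (1 - s) * s ^ 2 := by
          have : 0 < 1 - s := by linarith
          positivity
        linarith

theorem LC : LC_stmt := by
  intro d k hd hk
  obtain ⟨K, -, hK⟩ := Finset.exists_subset_card_eq (s := (Finset.univ : Finset (Fin d)))
    (n := k) (by rw [Finset.card_univ, Fintype.card_fin]; exact hk)
  have hd0 : (0 : ℝ) < d := by exact_mod_cast hd
  have hkd : (k : ℝ) ≤ d := by exact_mod_cast hk
  obtain ⟨s, hs⟩ : ∃ s : ℝ, s = (k : ℝ) / d := ⟨_, rfl⟩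
  have hks : (k : ℝ) = d * s := by rw [hs]; field_simp
  have hs0 : 0 ≤ s := by rw [hs]; positivity
  have hs1 : s ≤ 1 := by rw [hs]; exact div_le_one_of_le₀ hkd hd0.le
  obtain ⟨a, b, h1, h2, h3⟩ := LC_par s hs0 hs1
  obtain ⟨y, hy⟩ : ∃ y : Fin d → ℝ, ∀ i, y i = if i ∈ K then a else b := ⟨_, fun _ => rfl⟩
  have hsum1 : ∑ i, y i = k * a + (d - k) * b := by
    simp only [hy]
    rw [LC_sum, hK]
  have hsum2 : ∑ i, y i ^ 2 = k * a ^ 2 + (d - k) * b ^ 2 := by
    have : ∀ i, y i ^ 2 = if i ∈ K then a ^ 2 else b ^ 2 := by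
      intro i
      rw [hy]
      split_ifs <;> rfl
    simp only [this]
    rw [LC_sum, hK]
  refine ⟨K.powersetCard 2, y, ?_, ?_, ?_, ?_⟩
  · intro p hp
    exact (Finset.mem_powersetCard.1 hp).2
  · rw [Finset.card_powersetCard, hK]
    exact LC_ch k
  · rw [hsum2, hks]
    have : (d : ℝ) * s * a ^ 2 + (d - d * s) * b ^ 2 = d * (s * a ^ 2 + (1 - s) * b ^ 2) := by ring
    rw [this]
    positivity
  · have hgf : gf (K.powersetCard 2) y = (k * a + (d - k) * b) ^ 2 + 2 * k * (k - 1) * a ^ 2 := by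
      unfold gf
      rw [hsum1]
      have : ∑ p ∈ K.powersetCard 2, (∑ i ∈ p, y i) ^ 2 =
          ∑ _p ∈ K.powersetCard 2, (2 * a) ^ 2 := by
        apply Finset.sum_congr rfl
        intro p hp
        obtain ⟨hp1, hp2⟩ := Finset.mem_powersetCard.1 hp
        congr 1
        calc ∑ i ∈ p, y i = ∑ _i ∈ p, a := Finset.sum_congr rfl fun i hi => by
              rw [hy, if_pos (hp1 hi)]
          _ = 2 * a := by rw [Finset.sum_const, hp2, nsmul_eq_mul]; norm_num
      rw [this, Finset.sum_const, Finset.card_powersetCard, hK, nsmul_eq_mul, Nat.cast_choose_two]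
      ring
    rw [hgf, hsum2, ← hs, hks]
    have e1 : (0 : ℝ) ≤ b ^ 2 * (d - d * s) := by
      have : 0 ≤ (d : ℝ) - d * s := by nlinarith
      positivity
    have key : (d * s * a + (d - d * s) * b) ^ 2 + 2 * (d * s) ^ 2 * a ^ 2 =
        d ^ 2 * (s * (3 * s * a + (1 - s) * b) * a + (1 - s) * (s * a + (1 - s) * b) * b) := by
      ring
    rw [h1, h2] at key
    nlinarith

end Pool.Agent.helper9.HQ
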